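import Mathlib
import Pool.Agent.Helper74.Iso.Defs
import Pool.Agent.Helper74.Iso2.Defs2

/-!
# Stationary surfaces, conormal and box charts
-/

namespace Pool.Agent.Helper74.Iso3

open Module InnerProductSpace MeasureTheory Set Pool.Agent.Helper74.Iso Pool.Agent.Helper74.Iso2
open scoped ContDiff

variable {E : Type*} [NormedAddCommGroup E] [InnerProductSpace ℝ E] [FiniteDimensional ℝ E]

/-- The surface `M` with boundary `B` is stationary for area: `∫_M div_M X = 0` for all smooth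
vector fields `X` whose support does not meet `B`. -/
def IsStationary [MeasurableSpace E] [BorelSpace E] (M B : Set E) : Prop :=
  ∀ X : E → E, ContDiff ℝ ∞ X → Disjoint (tsupport X) B →
    ∫ x in M, tdiv (tangentPlane M x) (fderiv ℝ X x) ∂μHE[2] = 0

/-- The same for `C¹` vector fields. -/
def IsStationary1 [MeasurableSpace E] [BorelSpace E] (M B : Set E) : Prop :=
  ∀ X : E → E, ContDiff ℝ 1 X → Disjoint (tsupport X) B →
    ∫ x in M, tdiv (tangentPlane M x) (fderiv ℝ X x) ∂μHE[2] = 0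

/-- `η` is the outward unit conormal of `M` at its boundary point `x`: the unit vector of the
tangent plane that makes an obtuse or right angle with all vectors of the (one-sided) tangent cone. -/
def IsOuterConormal (M : Set E) (x η : E) : Prop :=
  η ∈ tangentPlane M x ∧ ‖η‖ = 1 ∧ ∀ v ∈ posTangentConeAt M x, ⟪η, v⟫_ℝ ≤ 0

open Classical in
/-- The outward unit conormal field. -/
noncomputable def conormal (M : Set E) (x : E) : E :=
  if h : ∃ η, IsOuterConormal M x η then h.choose else 0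

/-- The area factor of a pair of vectors. -/
noncomputable def jac (u v : E) : ℝ := √(‖u‖ ^ 2 * ‖v‖ ^ 2 - ⟪u, v⟫_ℝ ^ 2)

/-- The first partial derivative. -/
noncomputable def d1 (P : ℝ × ℝ → E) (k : ℝ × ℝ) : E := fderiv ℝ P k (1, 0)

/-- The second partial derivative. -/
noncomputable def d2 (P : ℝ × ℝ → E) (k : ℝ × ℝ) : E := fderiv ℝ P k (0, 1)

/-- The outward unit conormal of the half-plane `{α u + β v | 0 ≤ α}`. -/
noncomputable def cn (u v : E) : E := -((‖v‖ * jac u v)⁻¹ • (‖v‖ ^ 2 • u - ⟪u, v⟫_ℝ • v))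

/-- A box chart: `P` maps an open set `Ω` containing the closed box `[a, r] × [-r, r]` immersively
and injectively to `E`, maps the closed box into `M`, covers `M ∩ N`, and maps the sides `s = r`,
`t = r`, `t = -r` of the box outside of the open set `N`. -/
structure Box (M N : Set E) (P : ℝ × ℝ → E) (Ω : Set (ℝ × ℝ)) (a r : ℝ) : Prop where
  pos : 0 < r
  lt : a < r
  isOpenΩ : IsOpen Ω
  isOpenN : IsOpen N
  sub : Icc a r ×ˢ Icc (-r) r ⊆ Ω
  smooth : ContDiffOn ℝ ∞ P Ω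
  inj : InjOn P Ω
  imm : ∀ k ∈ Ω, Function.Injective (fderiv ℝ P k)
  mapsTo : MapsTo P (Icc a r ×ˢ Icc (-r) r) M
  surj : M ∩ N ⊆ P '' (Icc a r ×ˢ Icc (-r) r)
  right : ∀ t ∈ Icc (-r) r, P (r, t) ∉ N
  top : ∀ s ∈ Icc a r, P (s, r) ∉ N
  bot : ∀ s ∈ Icc a r, P (s, -r) ∉ N
  tangent : ∀ k ∈ Icc a r ×ˢ Icc (-r) r,
    tangentPlane M (P k) = LinearMap.range (fderiv ℝ P k : ℝ × ℝ →ₗ[ℝ] E)

/-- A box chart at a boundary point, with boundary defining function `h`. -/
structure BdBox (M B N : Set E) (P : ℝ × ℝ → E) (Ω : Set (ℝ × ℝ)) (r : ℝ) (h : E → ℝ) : Prop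
    extends Box M N P Ω 0 r where
  hsmooth : ContDiffOn ℝ ∞ h N
  hP : ∀ k ∈ Icc 0 r ×ˢ Icc (-r) r, P k ∈ N → h (P k) = k.1
  h0 : ∀ x ∈ B ∩ N, h x = 0
  B_eq : B ∩ N = P '' ({(0 : ℝ)} ×ˢ Ioo (-r) r)
  cone_sub : ∀ t ∈ Ioo (-r) r, ∀ v ∈ posTangentConeAt M (P (0, t)),
    ∃ α β : ℝ, 0 ≤ α ∧ v = α • d1 P (0, t) + β • d2 P (0, t)
  cone_sup : ∀ t ∈ Ioo (-r) r, ∀ α β : ℝ, 0 ≤ α →
    α • d1 P (0, t) + β • d2 P (0, t) ∈ posTangentConeAt M (P (0, t))

end Pool.Agent.Helper74.Iso3
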