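import Mathlib
import Pool.Agent.Helper74.Iso2.Final2
import Pool.Agent.Helper74.Iso3.Defs3

/-!
# Linear algebra of a pair of vectors spanning a plane
-/

set_option linter.unusedSectionVars false

namespace Pool.Agent.Helper74.Iso3

open Module InnerProductSpace MeasureTheory Set Filter Topology
open Pool.Agent.Helper74.Iso Pool.Agent.Helper74.Iso2
open scoped ContDiff ENNReal

variable {E : Type*} [NormedAddCommGroup E] [InnerProductSpace ℝ E] [FiniteDimensional ℝ E]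

lemma inner_mul_le_norm_sq (u v : E) : 0 ≤ ‖u‖ ^ 2 * ‖v‖ ^ 2 - ⟪u, v⟫_ℝ ^ 2 := by
  have h := real_inner_mul_inner_self_le u v
  rw [real_inner_self_eq_norm_sq, real_inner_self_eq_norm_sq] at h
  nlinarith

lemma jac_sq (u v : E) : jac u v ^ 2 = ‖u‖ ^ 2 * ‖v‖ ^ 2 - ⟪u, v⟫_ℝ ^ 2 :=
  Real.sq_sqrt (inner_mul_le_norm_sq u v)

lemma jac_nn (u v : E) : 0 ≤ jac u v := Real.sqrt_nonneg _

lemma ne_zero_right {u v : E} (h : LinearIndependent ℝ ![u, v]) : v ≠ 0 := by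
  have := h.ne_zero 1
  simpa using this

lemma ne_zero_left {u v : E} (h : LinearIndependent ℝ ![u, v]) : u ≠ 0 := by
  have := h.ne_zero 0
  simpa using this

lemma jac_pos {u v : E} (h : LinearIndependent ℝ ![u, v]) : 0 < jac u v := by
  apply Real.sqrt_pos.2
  have hv : v ≠ 0 := ne_zero_right h
  have hv' : 0 < ‖v‖ ^ 2 := by positivity
  -- the perpendicular part of u is nonzero
  have hw : ‖v‖ ^ 2 • u - ⟪u, v⟫_ℝ • v ≠ 0 := by
    intro h0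
    have h1 := LinearIndependent.pair_iff.1 h (‖v‖ ^ 2) (-⟪u, v⟫_ℝ) (by
      rw [neg_smul, ← sub_eq_add_neg]; exact h0)
    exact hv'.ne' h1.1
  have h2 : 0 < ‖‖v‖ ^ 2 • u - ⟪u, v⟫_ℝ • v‖ ^ 2 := by positivity
  rw [← real_inner_self_eq_norm_sq] at h2
  simp only [inner_sub_left, inner_sub_right, inner_smul_left, inner_smul_right,
    RCLike.conj_to_real, real_inner_self_eq_norm_sq, real_inner_comm u v] at h2
  have h3 : ‖v‖ ^ 2 * (‖u‖ ^ 2 * ‖v‖ ^ 2 - ⟪u, v⟫_ℝ ^ 2) > 0 := by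
    have : ⟪v, u⟫_ℝ = ⟪u, v⟫_ℝ := real_inner_comm _ _
    nlinarith
  by_contra hcon
  have h4 := mul_nonpos_of_nonneg_of_nonpos hv'.le (not_lt.1 hcon)
  linarith

lemma continuous_jac : Continuous (fun p : E × E => jac p.1 p.2) := by
  unfold jac
  fun_prop

lemma linearIndependent_pair {A : ℝ × ℝ →L[ℝ] E} (h : Function.Injective A) :
    LinearIndependent ℝ ![A (1, 0), A (0, 1)] := by
  rw [LinearIndependent.pair_iff]
  intro s t hst
  have h1 : A (s, t) = 0 := by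
    rw [← hst, ← map_smul, ← map_smul, ← map_add]
    congr 1
    ext <;> simp
  have h2 : (s, t) = (0 : ℝ × ℝ) := h (by rw [h1, map_zero])
  exact ⟨congrArg Prod.fst h2, congrArg Prod.snd h2⟩

lemma range_eq_span_pair (A : ℝ × ℝ →L[ℝ] E) :
    LinearMap.range (A : ℝ × ℝ →ₗ[ℝ] E) = Submodule.span ℝ {A (1, 0), A (0, 1)} := by
  apply le_antisymm
  · rintro _ ⟨⟨s, t⟩, rfl⟩
    rw [Submodule.mem_span_pair]
    refine ⟨s, t, ?_⟩
    have : ((s, t) : ℝ × ℝ) = s • (1, 0) + t • (0, 1) := by ext <;> simp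
    rw [← map_smul, ← map_smul, ← map_add, ← this]
    rfl
  · rw [Submodule.span_le]
    rintro x hx
    simp only [mem_insert_iff, mem_singleton_iff] at hx
    rcases hx with rfl | rfl
    · exact ⟨_, rfl⟩
    · exact ⟨_, rfl⟩

/-- an orthonormal pair adapted to `u, v`: `q₂ = v/‖v‖` and `q₁` in the span -/
lemma exists_frame_pair {u v : E} (h : LinearIndependent ℝ ![u, v]) :
    ∃ q₁ q₂ : E, ⟪q₁, q₁⟫_ℝ = 1 ∧ ⟪q₂, q₂⟫_ℝ = 1 ∧ ⟪q₁, q₂⟫_ℝ = 0 ∧ v = ‖v‖ • q₂ ∧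
      u = (jac u v / ‖v‖) • q₁ + (⟪u, v⟫_ℝ / ‖v‖) • q₂ ∧ cn u v = -q₁ := by
  have hv : v ≠ 0 := ne_zero_right h
  have hv' : ‖v‖ ≠ 0 := norm_ne_zero_iff.2 hv
  have hj := jac_pos h
  have hj2 := jac_sq u v
  have hvu : ⟪v, u⟫_ℝ = ⟪u, v⟫_ℝ := real_inner_comm _ _
  refine ⟨(‖v‖ * jac u v)⁻¹ • (‖v‖ ^ 2 • u - ⟪u, v⟫_ℝ • v), ‖v‖⁻¹ • v, ?_, ?_, ?_, ?_, ?_, rfl⟩
  · simp only [inner_sub_left, inner_sub_right, inner_smul_left, inner_smul_right,
      RCLike.conj_to_real, real_inner_self_eq_norm_sq, hvu]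
    field_simp
    rw [hj2]
    ring
  · simp only [inner_smul_left, inner_smul_right, RCLike.conj_to_real, real_inner_self_eq_norm_sq]
    field_simp
  · simp only [inner_sub_left, inner_smul_left, inner_smul_right,
      RCLike.conj_to_real, real_inner_self_eq_norm_sq]
    ring
  · rw [smul_smul, mul_inv_cancel₀ hv', one_smul]
  · rw [smul_smul, smul_sub, smul_smul, smul_smul, smul_smul]
    have e1 : jac u v / ‖v‖ * (‖v‖ * jac u v)⁻¹ * ‖v‖ ^ 2 = 1 := by field_simp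
    have e2 : jac u v / ‖v‖ * (‖v‖ * jac u v)⁻¹ * ⟪u, v⟫_ℝ = ⟪u, v⟫_ℝ / ‖v‖ * ‖v‖⁻¹ := by
      field_simp
    rw [e1, e2, one_smul]
    module

lemma span_frame {u v q₁ q₂ : E} (h : LinearIndependent ℝ ![u, v]) (h2 : v = ‖v‖ • q₂)
    (h1 : u = (jac u v / ‖v‖) • q₁ + (⟪u, v⟫_ℝ / ‖v‖) • q₂) :
    Submodule.span ℝ {u, v} = Submodule.span ℝ {q₁, q₂} := by
  have hv' : ‖v‖ ≠ 0 := norm_ne_zero_iff.2 (ne_zero_right h)
  have hj := (jac_pos h).ne'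
  apply le_antisymm
  · rw [Submodule.span_le]
    rintro x hx
    simp only [mem_insert_iff, mem_singleton_iff] at hx
    rcases hx with rfl | rfl
    · exact Submodule.mem_span_pair.2 ⟨_, _, h1.symm⟩
    · exact Submodule.mem_span_pair.2 ⟨0, ‖x‖, by rw [zero_smul, zero_add]; exact h2.symm⟩
  · rw [Submodule.span_le]
    have hq2 : q₂ = ‖v‖⁻¹ • v := by
      nth_rw 2 [h2]
      rw [smul_smul, inv_mul_cancel₀ hv', one_smul]
    rintro x hx
    simp only [mem_insert_iff, mem_singleton_iff] at hx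
    rcases hx with rfl | rfl
    · refine Submodule.mem_span_pair.2 ⟨‖v‖ / jac u v, -(⟪u, v⟫_ℝ / (jac u v * ‖v‖)), ?_⟩
      have e1 : (‖v‖ / jac u v) • u = x + (⟪u, v⟫_ℝ / jac u v) • q₂ := by
        have e0 := congrArg (fun w => (‖v‖ / jac u v) • w) h1
        refine e0.trans ?_
        rw [smul_add, smul_smul, smul_smul]
        have e2 : ‖v‖ / jac u v * (jac u v / ‖v‖) = 1 := by field_simp
        have e3 : ‖v‖ / jac u v * (⟪u, v⟫_ℝ / ‖v‖) = ⟪u, v⟫_ℝ / jac u v := by field_simp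
        rw [e2, e3, one_smul]
      rw [e1, hq2, smul_smul]
      have e4 : ⟪u, v⟫_ℝ / jac u v * ‖v‖⁻¹ = ⟪u, v⟫_ℝ / (jac u v * ‖v‖) := by field_simp
      rw [e4]
      module
    · exact Submodule.mem_span_pair.2 ⟨0, ‖v‖⁻¹, by rw [zero_smul, zero_add]; exact hq2.symm⟩

/-- divergence along the span of an orthonormal pair -/
lemma tdiv_frame {q₁ q₂ : E} (h11 : ⟪q₁, q₁⟫_ℝ = 1) (h22 : ⟪q₂, q₂⟫_ℝ = 1) (h12 : ⟪q₁, q₂⟫_ℝ = 0)
    (A : E →L[ℝ] E) :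
    tdiv (Submodule.span ℝ {q₁, q₂}) A = ⟪q₁, A q₁⟫_ℝ + ⟪q₂, A q₂⟫_ℝ := by
  have h21 : ⟪q₂, q₁⟫_ℝ = 0 := by rw [real_inner_comm]; exact h12
  have hP : (Submodule.span ℝ {q₁, q₂}).starProjection = rankOne ℝ q₁ q₁ + rankOne ℝ q₂ q₂ := by
    ext w
    apply Submodule.eq_starProjection_of_mem_of_inner_eq_zero
    · refine Submodule.mem_span_pair.2 ⟨⟪q₁, w⟫_ℝ, ⟪q₂, w⟫_ℝ, ?_⟩
      simp
    · intro z hz
      obtain ⟨a, b, rfl⟩ := Submodule.mem_span_pair.1 hz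
      simp only [add_apply, rankOne_apply, inner_sub_left, inner_add_left, inner_add_right,
        inner_smul_left, inner_smul_right, RCLike.conj_to_real, h11, h22, h12, h21]
      rw [real_inner_comm q₁ w, real_inner_comm q₂ w]
      ring
  rw [tdiv, hP, ContinuousLinearMap.add_comp, ContinuousLinearMap.toLinearMap_add, map_add,
    trace_rank_comp, trace_rank_comp]

/-- the divergence in terms of a basis of the plane -/
lemma jac_sq_mul_tdiv {u v : E} (h : LinearIndependent ℝ ![u, v]) (A : E →L[ℝ] E) :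
    jac u v ^ 2 * tdiv (Submodule.span ℝ {u, v}) A =
      ‖v‖ ^ 2 * ⟪u, A u⟫_ℝ - ⟪u, v⟫_ℝ * (⟪u, A v⟫_ℝ + ⟪v, A u⟫_ℝ) + ‖u‖ ^ 2 * ⟪v, A v⟫_ℝ := by
  obtain ⟨q₁, q₂, h11, h22, h12, hv, hu, -⟩ := exists_frame_pair h
  have hv' : ‖v‖ ≠ 0 := norm_ne_zero_iff.2 (ne_zero_right h)
  have hj := (jac_pos h).ne'
  rw [span_frame h hv hu, tdiv_frame h11 h22 h12]
  have hj2 := jac_sq u v
  have hu2 : ‖u‖ ^ 2 = (jac u v ^ 2 + ⟪u, v⟫_ℝ ^ 2) / ‖v‖ ^ 2 := by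
    rw [hj2]; field_simp; ring
  rw [hu2]
  obtain ⟨a, ha⟩ : ∃ a, a = jac u v := ⟨_, rfl⟩
  obtain ⟨b, hb⟩ : ∃ b, b = ⟪u, v⟫_ℝ := ⟨_, rfl⟩
  obtain ⟨c, hc⟩ : ∃ c, c = ‖v‖ := ⟨_, rfl⟩
  rw [← ha] at hj hu ⊢
  rw [← hb] at hu ⊢
  rw [← hc] at hv' hu hv ⊢
  rw [hu, hv]
  simp only [map_add, map_smul, inner_add_left, inner_add_right, inner_smul_left,
    inner_smul_right, RCLike.conj_to_real]
  field_simp
  ring

/-- the divergence of a rank one map `x ↦ ℓ(x) X` where `ℓ u = 1`, `ℓ v = 0` -/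
lemma jac_mul_tdiv_smulRight {u v : E} (h : LinearIndependent ℝ ![u, v]) {l : E →L[ℝ] ℝ}
    (hu : l u = 1) (hv : l v = 0) (X : E) :
    jac u v * tdiv (Submodule.span ℝ {u, v}) (l.smulRight X) = -(‖v‖ * ⟪X, cn u v⟫_ℝ) := by
  have h1 := jac_sq_mul_tdiv h (l.smulRight X)
  have hj := jac_pos h
  have hv' : ‖v‖ ≠ 0 := norm_ne_zero_iff.2 (ne_zero_right h)
  simp only [ContinuousLinearMap.smulRight_apply, hu, hv, one_smul, zero_smul, inner_zero_right]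
    at h1
  rw [cn, inner_neg_right, inner_smul_right, inner_sub_right, inner_smul_right, inner_smul_right,
    real_inner_comm u X, real_inner_comm v X]
  have h2 : jac u v * tdiv (Submodule.span ℝ {u, v}) (l.smulRight X) =
      (jac u v ^ 2 * tdiv (Submodule.span ℝ {u, v}) (l.smulRight X)) / jac u v := by
    field_simp
  rw [h2, h1]
  field_simp
  ring

lemma tcurl_eq_cu (J A : E →L[ℝ] E) : tcurl J A = cu J A := rfl

lemma finrank_span_pair {u v : E} (h : LinearIndependent ℝ ![u, v]) :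
    finrank ℝ (Submodule.span ℝ {u, v}) = 2 := by
  have h1 := finrank_span_eq_card h
  rw [Fintype.card_fin] at h1
  have h2 : range ![u, v] = {u, v} := by
    simp only [Matrix.range_cons, Matrix.range_empty, union_empty]
    rfl
  rw [h2] at h1
  exact h1

lemma tcurl_eq {J : E →L[ℝ] E} {u v : E} (h : LinearIndependent ℝ ![u, v])
    (hJ : IsRotationOf J (Submodule.span ℝ {u, v})) (A : E →L[ℝ] E) :
    ⟪A u, v⟫_ℝ - ⟪A v, u⟫_ℝ = ⟪J u, v⟫_ℝ * tcurl J A := by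
  obtain ⟨q₁, q₂, h11, h22, h12, hJq⟩ := hJ.exists_frame (finrank_span_pair h)
  have h21 : ⟪q₂, q₁⟫_ℝ = 0 := by rw [real_inner_comm]; exact h12
  -- u and v are combinations of q₁ and q₂
  have hmem : ∀ w ∈ Submodule.span ℝ {u, v}, w = ⟪q₁, w⟫_ℝ • q₁ + ⟪q₂, w⟫_ℝ • q₂ := by
    intro w hw
    have h1 : J (J w) = -w := by
      have h2 : J (J w) = -(Submodule.span ℝ {u, v}).starProjection w :=
        congrArg (fun L : E →L[ℝ] E => L w) hJ.2
      rw [h2, Submodule.starProjection_eq_self_iff.2 hw]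
    rw [hJq (J w), hJq w] at h1
    simp only [inner_sub_right, inner_smul_right, h11, h22, h12, h21] at h1
    have h2 : w = -(-w) := (neg_neg w).symm
    nth_rw 1 [h2, ← h1]
    module
  have hu := hmem u (Submodule.subset_span (by simp))
  have hv := hmem v (Submodule.subset_span (by simp))
  rw [tcurl_eq_cu, cu_eq hJq, hJq u]
  obtain ⟨a, ha⟩ : ∃ a, a = ⟪q₁, u⟫_ℝ := ⟨_, rfl⟩
  obtain ⟨b, hb⟩ : ∃ a, a = ⟪q₂, u⟫_ℝ := ⟨_, rfl⟩
  obtain ⟨c, hc⟩ : ∃ a, a = ⟪q₁, v⟫_ℝ := ⟨_, rfl⟩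
  obtain ⟨d, hd⟩ : ∃ a, a = ⟪q₂, v⟫_ℝ := ⟨_, rfl⟩
  rw [← ha, ← hb] at hu ⊢
  rw [inner_sub_left, inner_smul_left, inner_smul_left, ← hc, ← hd]
  rw [← hc, ← hd] at hv
  rw [hu, hv]
  simp only [map_add, map_smul, inner_add_left, inner_add_right, inner_smul_left,
    inner_smul_right, RCLike.conj_to_real]
  rw [real_inner_comm q₁ (A q₁), real_inner_comm q₂ (A q₁), real_inner_comm q₁ (A q₂),
    real_inner_comm q₂ (A q₂)]
  ring

/-- the rotation of a frame -/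
lemma J_frame {J : E →L[ℝ] E} {u v : E} (h : LinearIndependent ℝ ![u, v])
    (hJ : IsRotationOf J (Submodule.span ℝ {u, v})) {q₁ q₂ : E} (h11 : ⟪q₁, q₁⟫_ℝ = 1)
    (h22 : ⟪q₂, q₂⟫_ℝ = 1) (h12 : ⟪q₁, q₂⟫_ℝ = 0) (hv : v = ‖v‖ • q₂)
    (hu : u = (jac u v / ‖v‖) • q₁ + (⟪u, v⟫_ℝ / ‖v‖) • q₂) :
    ⟪J u, v⟫_ℝ = jac u v * ⟪J q₁, q₂⟫_ℝ ∧ J q₁ = ⟪J q₁, q₂⟫_ℝ • q₂ ∧ ⟪J q₁, q₂⟫_ℝ ^ 2 = 1 := by
  have hv' : ‖v‖ ≠ 0 := norm_ne_zero_iff.2 (ne_zero_right h)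
  have hsp := span_frame h hv hu
  obtain ⟨hsk, hJJ⟩ := hJ
  have hJJ' : ∀ w, J (J w) = -(Submodule.span ℝ {u, v}).starProjection w :=
    fun w => congrArg (fun L : E →L[ℝ] E => L w) hJJ
  have hself : ∀ w, ⟪J w, w⟫_ℝ = 0 := by
    intro w
    have h1 := hsk w w
    have h2 : ⟪J w, w⟫_ℝ = ⟪w, J w⟫_ℝ := real_inner_comm _ _
    linarith
  have hq₁ : q₁ ∈ Submodule.span ℝ {u, v} := by
    rw [hsp]; exact Submodule.subset_span (by simp)
  have hPJ : ∀ w, (Submodule.span ℝ {u, v}).starProjection (J w) =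
      J ((Submodule.span ℝ {u, v}).starProjection w) := by
    intro w
    have h1 := hJJ' (J w)
    have h2 := congrArg J (hJJ' w)
    rw [map_neg] at h2
    rw [h1] at h2
    exact neg_injective h2
  have hJq₁ : J q₁ ∈ Submodule.span ℝ {u, v} := by
    rw [← Submodule.starProjection_eq_self_iff, hPJ, Submodule.starProjection_eq_self_iff.2 hq₁]
  have hform : J q₁ = ⟪J q₁, q₂⟫_ℝ • q₂ := by
    rw [hsp] at hJq₁
    obtain ⟨a, b, hab⟩ := Submodule.mem_span_pair.1 hJq₁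
    have h21 : ⟪q₂, q₁⟫_ℝ = 0 := by rw [real_inner_comm]; exact h12
    have h1 := hself q₁
    rw [← hab] at h1 ⊢
    simp only [inner_add_left, inner_smul_left, RCLike.conj_to_real, h11, h21, h22, h12] at h1 ⊢
    have ha : a = 0 := by linarith
    rw [ha]
    simp
  have hnorm : ⟪J q₁, J q₁⟫_ℝ = 1 := by
    rw [hsk, hJJ', Submodule.starProjection_eq_self_iff.2 hq₁, inner_neg_right, neg_neg, h11]
  refine ⟨?_, hform, ?_⟩
  · have e1 : ⟪J u, v⟫_ℝ = ‖v‖ * ⟪J u, q₂⟫_ℝ := by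
      nth_rw 1 [hv]
      rw [inner_smul_right]
    have e2 : ⟪J u, q₂⟫_ℝ = jac u v / ‖v‖ * ⟪J q₁, q₂⟫_ℝ := by
      have : J u = (jac u v / ‖v‖) • J q₁ + (⟪u, v⟫_ℝ / ‖v‖) • J q₂ := by
        rw [← map_smul, ← map_smul, ← map_add, ← hu]
      rw [this, inner_add_left, inner_smul_left, inner_smul_left, hself q₂]
      simp
    rw [e1, e2]
    field_simp
  · have h2 := hnorm
    rw [hform] at h2
    simp only [inner_smul_left, inner_smul_right, RCLike.conj_to_real, h22] at h2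
    nlinarith

lemma inner_J_sq {J : E →L[ℝ] E} {u v : E} (h : LinearIndependent ℝ ![u, v])
    (hJ : IsRotationOf J (Submodule.span ℝ {u, v})) : ⟪J u, v⟫_ℝ ^ 2 = jac u v ^ 2 := by
  obtain ⟨q₁, q₂, h11, h22, h12, hv, hu, -⟩ := exists_frame_pair h
  obtain ⟨h1, -, h3⟩ := J_frame h hJ h11 h22 h12 hv hu
  rw [h1, mul_pow, h3, mul_one]

lemma norm_smul_J_cn {J : E →L[ℝ] E} {u v : E} (h : LinearIndependent ℝ ![u, v])
    (hJ : IsRotationOf J (Submodule.span ℝ {u, v})) {σ : ℝ} (hσ : ⟪J u, v⟫_ℝ = σ * jac u v) :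
    ‖v‖ • J (cn u v) = -σ • v := by
  obtain ⟨q₁, q₂, h11, h22, h12, hv, hu, hcn⟩ := exists_frame_pair h
  obtain ⟨h1, h2, h3⟩ := J_frame h hJ h11 h22 h12 hv hu
  have hj := (jac_pos h).ne'
  have hs : ⟪J q₁, q₂⟫_ℝ = σ := by
    rw [h1, mul_comm σ] at hσ
    exact mul_left_cancel₀ hj hσ
  rw [hcn, map_neg, h2, hs]
  nth_rw 2 [hv]
  module

/-- the conormal of a half-plane -/
lemma cn_facts {u v : E} (h : LinearIndependent ℝ ![u, v]) :
    cn u v ∈ Submodule.span ℝ {u, v} ∧ ‖cn u v‖ = 1 ∧ ⟪cn u v, v⟫_ℝ = 0 ∧ ⟪cn u v, u⟫_ℝ < 0 := by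
  obtain ⟨q₁, q₂, h11, h22, h12, hv, hu, hcn⟩ := exists_frame_pair h
  have hv' : 0 < ‖v‖ := norm_pos_iff.2 (ne_zero_right h)
  have hj := jac_pos h
  refine ⟨?_, ?_, ?_, ?_⟩
  · rw [hcn, span_frame h hv hu]
    exact Submodule.neg_mem _ (Submodule.subset_span (by simp))
  · rw [hcn, norm_neg]
    have h5 := h11
    rw [real_inner_self_eq_norm_sq] at h5
    nlinarith [norm_nonneg q₁]
  · rw [hcn, hv, inner_neg_left, inner_smul_right, h12]
    simp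
  · rw [hcn, inner_neg_left]
    have e1 : ⟪q₁, u⟫_ℝ = jac u v / ‖v‖ := by
      nth_rw 1 [hu]
      rw [inner_add_right, inner_smul_right, inner_smul_right, h11, h12]
      ring
    rw [e1]
    have : 0 < jac u v / ‖v‖ := by positivity
    linarith

end Pool.Agent.Helper74.Iso3
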