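import Mathlib
import Pool.Agent.Helper74.Iso.Final
import Pool.Agent.Helper74.Iso2.Final2
import Pool.Agent.Helper74.Iso3.Defs3
import Pool.Agent.Helper74.Iso3.LinAlg
import Pool.Agent.Helper10.Iso3.M3a
import Pool.Agent.Helper21.Iso3.Unity
import Pool.Agent.Helper22.Iso3.M2
import Pool.Agent.Helper73.Iso3.Conormal
import Pool.Agent.Helper73.Iso3.Mollify
import Pool.Agent.Helper75.Iso3.Stokes
import Pool.Agent.Helper90.Iso3.BoxBoundary
import Pool.Agent.Helper47.Iso3.FirstVar

/-!
# The sharp isoperimetric inequality for compact orientable stationary surfaces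

Assembly: the first variation formula and Stokes' formula of a compact stationary surface follow from
their local forms in box charts; then `surface_main2` applies.
-/

set_option linter.unusedSectionVars false

namespace Pool.Agent.Helper74.Iso3

open Module InnerProductSpace MeasureTheory Set Filter Topology
open Pool.Agent.Helper74.Iso Pool.Agent.Helper74.Iso2
open scoped ContDiff ENNReal

variable {E : Type*} [NormedAddCommGroup E] [InnerProductSpace ℝ E] [FiniteDimensional ℝ E]

/-! ### assembly -/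

theorem Box.stokes' [MeasurableSpace E] [BorelSpace E] {M N : Set E} (hM : MeasurableSet M)
    {P : ℝ × ℝ → E} {Ω : Set (ℝ × ℝ)} {a r : ℝ} (hb : Box M N P Ω a r) {J : E → E →L[ℝ] E}
    (hJ : IsOrientation M J) : ∃ σ : ℝ, (σ = 1 ∨ σ = -1) ∧
      (∀ k ∈ Icc a r ×ˢ Icc (-r) r,
        ⟪J (P k) (d1 P k), d2 P k⟫_ℝ = σ * jac (d1 P k) (d2 P k)) ∧
      ∀ X : E → E, ContDiff ℝ 1 X → tsupport X ⊆ N →
        ∫ x in M, tcurl (J x) (fderiv ℝ X x) ∂μHE[2] =
          -σ * ∫ t in (-r)..r, ⟪X (P (a, t)), d2 P (a, t)⟫_ℝ :=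
  hb.stokes_of_area hM hJ fun g => integral_surface hb.isOpenΩ (hb.smooth.of_le (by simp)) hb.inj
    hb.imm (measurableSet_Icc.prod measurableSet_Icc) hb.sub g

variable [MeasurableSpace E] [BorelSpace E]

lemma ae_mem_sdiff {M B : Set E} (h : IsCompactSurfaceWithBoundary M B) (hB : μHE[2] B = 0) :
    ∀ᵐ x ∂(μHE[2].restrict M), x ∈ M \ B := by
  rw [ae_restrict_iff' h.isCompact.measurableSet]
  have : ∀ᵐ x ∂(μHE[2] : Measure E), x ∉ B := measure_eq_zero_iff_ae_notMem.1 hB
  filter_upwards [this] with x hx hxM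
  exact ⟨hxM, hx⟩

lemma aesm_proj {M B : Set E} (h : IsCompactSurfaceWithBoundary M B) (hB : μHE[2] B = 0) :
    AEStronglyMeasurable (fun x => (tangentPlane M x).starProjection) (μHE[2].restrict M) := by
  have hres : μHE[2].restrict M = μHE[2].restrict (M \ B) := by
    apply Measure.restrict_congr_set
    exact (sdiff_ae_eq_self.2 (measure_mono_null inter_subset_right hB)).symm
  rw [hres]
  apply ContinuousOn.aestronglyMeasurable _
    (h.isCompact.measurableSet.diff h.isClosed_boundary.measurableSet)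
  intro p hp
  obtain ⟨Φ, K, h1, h2, hpS, hK, hMK⟩ := h.interior_point p hp
  exact (continuousWithinAt_proj h1 h2 hMK hpS hp.1).mono sdiff_subset

lemma ae_finrank {M B : Set E} (h : IsCompactSurfaceWithBoundary M B) (hB : μHE[2] B = 0) :
    ∀ᵐ x ∂(μHE[2].restrict M), finrank ℝ (tangentPlane M x) = 2 := by
  filter_upwards [ae_mem_sdiff h hB] with x hx
  obtain ⟨Φ, K, h1, h2, hpS, hK, hMK⟩ := h.interior_point x hx
  rw [finrank_tangentPlane h1 h2 hMK hpS hx.1, hK]

lemma integrable_tdiv' {M B : Set E} (h : IsCompactSurfaceWithBoundary M B) (hB : μHE[2] B = 0)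
    {A : E → (E →L[ℝ] E)} (hA : Continuous A) :
    Integrable (fun x => tdiv (tangentPlane M x) (A x)) (μHE[2].restrict M) := by
  have : IsFiniteMeasure (μHE[2].restrict M) := ⟨by simpa using area_lt_top h⟩
  obtain ⟨C, hC⟩ := h.isCompact.exists_bound_of_continuousOn hA.continuousOn
  refine Integrable.of_bound (C := 2 * C) (aesm_tdiv (aesm_proj h hB) hA) ?_
  filter_upwards [ae_finrank h hB, ae_restrict_mem h.isCompact.measurableSet] with x hx hxM
  rw [Real.norm_eq_abs]
  have h1 := abs_tdiv_le hx (A x)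
  have h2 := hC x hxM
  linarith

lemma integrable_tcurl {M B : Set E} (h : IsCompactSurfaceWithBoundary M B) (hB : μHE[2] B = 0)
    {J : E → E →L[ℝ] E} (hJ : IsOrientation M J) {A : E → (E →L[ℝ] E)} (hA : Continuous A) :
    Integrable (fun x => tcurl (J x) (A x)) (μHE[2].restrict M) := by
  have : IsFiniteMeasure (μHE[2].restrict M) := ⟨by simpa using area_lt_top h⟩
  obtain ⟨C, hC⟩ := h.isCompact.exists_bound_of_continuousOn hA.continuousOn
  have hJm : AEStronglyMeasurable J (μHE[2].restrict M) :=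
    hJ.1.aestronglyMeasurable h.isCompact.measurableSet
  refine Integrable.of_bound (C := 2 * C)
    (continuous_cu.comp_aestronglyMeasurable (hJm.prodMk hA.aestronglyMeasurable)) ?_
  filter_upwards [ae_finrank h hB, ae_restrict_mem h.isCompact.measurableSet] with x hx hxM
  rw [Real.norm_eq_abs]
  have h1 := abs_cu_le ((hJ.2 x hxM).isPlaneRot hx) (A x)
  have h2 := hC x hxM
  change |cu (J x) (A x)| ≤ 2 * C
  linarith

lemma integrable_inner_bd {M B : Set E} (h : IsCompactSurfaceWithBoundary M B)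
    (hB : μHE[1] B < ⊤) {η : E → E} (hη : ContinuousOn η B) {X : E → E} (hX : Continuous X) :
    Integrable (fun x => ⟪X x, η x⟫_ℝ) (μHE[1].restrict B) := by
  have : IsFiniteMeasure (μHE[1].restrict B) := ⟨by simpa using hB⟩
  have hBc : IsCompact B := h.isCompact.of_isClosed_subset h.isClosed_boundary h.boundary_subset
  have hc : ContinuousOn (fun x => ⟪X x, η x⟫_ℝ) B := hX.continuousOn.inner hη
  obtain ⟨C, hC⟩ := hBc.exists_bound_of_continuousOn hc
  refine Integrable.of_bound (C := C) (hc.aestronglyMeasurable hBc.measurableSet) ?_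
  filter_upwards [ae_restrict_mem hBc.measurableSet] with x hx using hC x hx

lemma continuousOn_conormal {M B : Set E} (h : IsCompactSurfaceWithBoundary M B) :
    ContinuousOn (conormal M) B := by
  intro x hx
  obtain ⟨N, P, Ω, r, f, hxN, hb⟩ := exists_box_boundary h hx
  have h1 := hb.continuousOn_conormal x ⟨hx, hxN⟩
  exact (continuousWithinAt_inter (hb.isOpenN.mem_nhds hxN)).1 h1

lemma conormal_facts {M B : Set E} (h : IsCompactSurfaceWithBoundary M B) {x : E} (hx : x ∈ B) :
    ‖conormal M x‖ = 1 ∧ conormal M x ∈ tangentPlane M x := by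
  obtain ⟨N, P, Ω, r, f, hxN, hb⟩ := exists_box_boundary h hx
  have h1 : x ∈ P '' ({(0 : ℝ)} ×ˢ Ioo (-r) r) := by rw [← hb.B_eq]; exact ⟨hx, hxN⟩
  obtain ⟨⟨s, t⟩, ⟨hs, ht⟩, rfl⟩ := h1
  simp only [mem_singleton_iff] at hs
  subst hs
  have h2 := hb.isOuterConormal_cn ht
  rw [← hb.conormal_eq ht] at h2
  exact ⟨h2.2.1, h2.1⟩

/-- the boundary curve of a boundary box -/
lemma BdBox.integral_bd {M B N : Set E} {P : ℝ × ℝ → E} {Ω : Set (ℝ × ℝ)} {r : ℝ} {f : E → ℝ}
    (hB : IsClosed B) (hb : BdBox M B N P Ω r f) {g : E → ℝ} (hg : ∀ x, x ∉ N → g x = 0) :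
    ∫ x in B, g x ∂μHE[1] = ∫ t in (-r)..r, ‖d2 P (0, t)‖ * g (P (0, t)) := by
  have hsub : ∀ t ∈ Ioo (-r) r, ((0 : ℝ), t) ∈ Ω := fun t ht =>
    hb.sub ⟨⟨le_rfl, hb.pos.le⟩, ⟨ht.1.le, ht.2.le⟩⟩
  set I : Set ℝ := (fun t : ℝ => ((0 : ℝ), t)) ⁻¹' Ω with hI
  have hcont : Continuous (fun t : ℝ => ((0 : ℝ), t)) := by fun_prop
  have hIo : IsOpen I := hb.isOpenΩ.preimage hcont
  have hder : ∀ t ∈ I, HasDerivAt (fun t => P (0, t)) (d2 P (0, t)) t := by
    intro t ht
    have h1 : HasFDerivAt P (fderiv ℝ P (0, t)) (0, t) :=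
      ((hb.smooth.contDiffAt (hb.isOpenΩ.mem_nhds ht)).differentiableAt (by simp)).hasFDerivAt
    have h2 : HasDerivAt (fun t : ℝ => ((0 : ℝ), t)) (0, 1) t :=
      (hasDerivAt_const t 0).prodMk (hasDerivAt_id t)
    exact h1.comp_hasDerivAt t h2
  have hc : ContDiffOn ℝ 1 (fun t => P (0, t)) I := by
    have h1 : ContDiffOn ℝ 1 P Ω := hb.smooth.of_le (by simp)
    exact h1.comp (contDiff_const.prodMk contDiff_id).contDiffOn (fun t ht => ht)
  have hinj : InjOn (fun t => P (0, t)) I := by
    intro t ht t' ht' htt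
    have := hb.inj ht ht' htt
    exact congrArg Prod.snd this
  have himm : ∀ t ∈ I, deriv (fun t => P (0, t)) t ≠ 0 := by
    intro t ht
    rw [(hder t ht).deriv]
    intro h0
    have h1 : fderiv ℝ P (0, t) (0, 1) = fderiv ℝ P (0, t) 0 := by rw [map_zero]; exact h0
    have h2 := hb.imm _ ht h1
    have h3 := congrArg Prod.snd h2
    simp at h3
  have h1 := integral_curve hIo hc hinj himm (s := Ioo (-r) r) measurableSet_Ioo hsub g
  have h2 : (fun t => P (0, t)) '' Ioo (-r) r = B ∩ N := by
    rw [hb.B_eq]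
    ext x
    constructor
    · rintro ⟨t, ht, rfl⟩
      exact ⟨(0, t), ⟨rfl, ht⟩, rfl⟩
    · rintro ⟨⟨s, t⟩, ⟨hs, ht⟩, rfl⟩
      simp only [mem_singleton_iff] at hs
      subst hs
      exact ⟨t, ht, rfl⟩
  rw [h2] at h1
  have h3 : ∫ x in B, g x ∂μHE[1] = ∫ x in B ∩ N, g x ∂μHE[1] := by
    apply setIntegral_eq_of_subset_of_forall_sdiff_eq_zero hB.measurableSet inter_subset_left
    rintro x ⟨hxB, hxN⟩
    apply hg
    intro hN
    exact hxN ⟨hxB, hN⟩
  rw [h3, h1, intervalIntegral.integral_of_le (by linarith [hb.pos]), integral_Ioc_eq_integral_Ioo]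
  apply setIntegral_congr_fun measurableSet_Ioo
  intro t ht
  simp only
  rw [(hder t (hsub t ht)).deriv]

lemma zero_of_notMem {X : E → E} {N : Set E} (hXN : tsupport X ⊆ N) {x : E} (hx : x ∉ N) :
    X x = 0 := image_eq_zero_of_notMem_tsupport fun h => hx (hXN h)

theorem firstVariationFormula {M B : Set E} (h : IsCompactSurfaceWithBoundary M B)
    (hB1 : μHE[1] B < ⊤) (hB2 : μHE[2] B = 0) (hs : IsStationary1 M B) :
    FirstVariationFormula M B (conormal M) := by
  intro X hX
  have hη := continuousOn_conormal h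
  have key := eq_zero_of_local h.isCompact (fun X => ∫ x in M, tdiv (tangentPlane M x)
    (fderiv ℝ X x) ∂μHE[2] - ∫ x in B, ⟪X x, conormal M x⟫_ℝ ∂μHE[1]) ?_ ?_ ?_ hX
  · linarith
  · intro X Y hX hY
    have i1 := integrable_tdiv' h hB2 (hX.continuous_fderiv (by norm_num))
    have i2 := integrable_tdiv' h hB2 (hY.continuous_fderiv (by norm_num))
    have i3 := integrable_inner_bd h hB1 hη hX.continuous
    have i4 := integrable_inner_bd h hB1 hη hY.continuous
    have e1 : ∀ x, tdiv (tangentPlane M x) (fderiv ℝ (fun x => X x + Y x) x) =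
        tdiv (tangentPlane M x) (fderiv ℝ X x) + tdiv (tangentPlane M x) (fderiv ℝ Y x) := by
      intro x
      rw [fderiv_fun_add (hX.differentiable (by norm_num) x) (hY.differentiable (by norm_num) x)]
      unfold tdiv
      rw [ContinuousLinearMap.comp_add, ContinuousLinearMap.toLinearMap_add, map_add]
    simp only [e1, inner_add_left]
    rw [integral_add i1 i2, integral_add i3 i4]
    ring
  · rintro X Y hX hY ⟨V, hV, hMV, hXY⟩
    have e1 : ∫ x in M, tdiv (tangentPlane M x) (fderiv ℝ X x) ∂μHE[2] =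
        ∫ x in M, tdiv (tangentPlane M x) (fderiv ℝ Y x) ∂μHE[2] := by
      apply setIntegral_congr_fun h.isCompact.measurableSet
      intro x hx
      have : X =ᶠ[𝓝 x] Y := by
        filter_upwards [hV.mem_nhds (hMV hx)] with z hz using hXY hz
      simp only [this.fderiv_eq]
    have e2 : ∫ x in B, ⟪X x, conormal M x⟫_ℝ ∂μHE[1] = ∫ x in B, ⟪Y x, conormal M x⟫_ℝ ∂μHE[1] := by
      apply setIntegral_congr_fun h.isClosed_boundary.measurableSet
      intro x hx
      simp only [hXY (hMV (h.boundary_subset hx))]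
    simp only [e1, e2]
  · intro x hx
    by_cases hxB : x ∈ B
    · obtain ⟨N, P, Ω, r, f, hxN, hb⟩ := exists_box_boundary h hxB
      refine ⟨N, hb.isOpenN, hxN, fun X hX hXN => ?_⟩
      have e1 := hb.firstVariation h.isCompact.measurableSet hs hX hXN
      have e2 := hb.integral_bd h.isClosed_boundary (g := fun x => ⟪X x, conormal M x⟫_ℝ)
        (fun x hx => by rw [zero_of_notMem hXN hx, inner_zero_left])
      simp only [e1, e2, sub_eq_zero]
      rw [intervalIntegral.integral_of_le (by linarith [hb.pos]),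
        intervalIntegral.integral_of_le (by linarith [hb.pos]), integral_Ioc_eq_integral_Ioo,
        integral_Ioc_eq_integral_Ioo]
      apply setIntegral_congr_fun measurableSet_Ioo
      intro t ht
      simp only [hb.conormal_eq ht]
    · obtain ⟨N, P, Ω, r, hxN, hNB, hb, -⟩ := exists_box_interior h ⟨hx, hxB⟩
      refine ⟨N, hb.isOpenN, hxN, fun X hX hXN => ?_⟩
      have e1 := hs X hX (hNB.mono_left hXN)
      have e2 : ∫ x in B, ⟪X x, conormal M x⟫_ℝ ∂μHE[1] = 0 := by
        apply setIntegral_eq_zero_of_forall_eq_zero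
        intro x hx
        rw [zero_of_notMem hXN (fun hN => (disjoint_left.1 hNB) hN hx), inner_zero_left]
      simp only [e1, e2, sub_zero]

theorem stokesFormula {M B : Set E} (h : IsCompactSurfaceWithBoundary M B)
    (hB1 : μHE[1] B < ⊤) (hB2 : μHE[2] B = 0) {J : E → E →L[ℝ] E} (hJ : IsOrientation M J) :
    StokesFormula M B J (conormal M) := by
  intro X hX
  have hη := continuousOn_conormal h
  have hη' : ContinuousOn (fun x => J x (conormal M x)) B :=
    (hJ.1.mono h.boundary_subset).clm_apply hη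
  have key := eq_zero_of_local h.isCompact (fun X => ∫ x in M, tcurl (J x)
    (fderiv ℝ X x) ∂μHE[2] - ∫ x in B, ⟪X x, J x (conormal M x)⟫_ℝ ∂μHE[1]) ?_ ?_ ?_ hX
  · linarith
  · intro X Y hX hY
    have i1 := integrable_tcurl h hB2 hJ (hX.continuous_fderiv (by norm_num))
    have i2 := integrable_tcurl h hB2 hJ (hY.continuous_fderiv (by norm_num))
    have i3 := integrable_inner_bd h hB1 hη' hX.continuous
    have i4 := integrable_inner_bd h hB1 hη' hY.continuous
    have e1 : ∀ x, tcurl (J x) (fderiv ℝ (fun x => X x + Y x) x) =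
        tcurl (J x) (fderiv ℝ X x) + tcurl (J x) (fderiv ℝ Y x) := by
      intro x
      rw [fderiv_fun_add (hX.differentiable (by norm_num) x) (hY.differentiable (by norm_num) x)]
      unfold tcurl
      rw [ContinuousLinearMap.comp_add, ContinuousLinearMap.toLinearMap_add, map_add]
      ring
    simp only [e1, inner_add_left]
    rw [integral_add i1 i2, integral_add i3 i4]
    ring
  · rintro X Y hX hY ⟨V, hV, hMV, hXY⟩
    have e1 : ∫ x in M, tcurl (J x) (fderiv ℝ X x) ∂μHE[2] =
        ∫ x in M, tcurl (J x) (fderiv ℝ Y x) ∂μHE[2] := by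
      apply setIntegral_congr_fun h.isCompact.measurableSet
      intro x hx
      have : X =ᶠ[𝓝 x] Y := by
        filter_upwards [hV.mem_nhds (hMV hx)] with z hz using hXY hz
      simp only [this.fderiv_eq]
    have e2 : ∫ x in B, ⟪X x, J x (conormal M x)⟫_ℝ ∂μHE[1] =
        ∫ x in B, ⟪Y x, J x (conormal M x)⟫_ℝ ∂μHE[1] := by
      apply setIntegral_congr_fun h.isClosed_boundary.measurableSet
      intro x hx
      simp only [hXY (hMV (h.boundary_subset hx))]
    simp only [e1, e2]
  · intro x hx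
    by_cases hxB : x ∈ B
    · obtain ⟨N, P, Ω, r, f, hxN, hb⟩ := exists_box_boundary h hxB
      refine ⟨N, hb.isOpenN, hxN, fun X hX hXN => ?_⟩
      obtain ⟨σ, hσ, hσJ, hst⟩ := hb.toBox.stokes' h.isCompact.measurableSet hJ
      have e1 := hst X hX hXN
      have e2 := hb.integral_bd h.isClosed_boundary (g := fun x => ⟪X x, J x (conormal M x)⟫_ℝ)
        (fun x hx => by rw [zero_of_notMem hXN hx, inner_zero_left])
      simp only [e1, e2, sub_eq_zero]
      rw [← intervalIntegral.integral_const_mul, intervalIntegral.integral_of_le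
        (by linarith [hb.pos]), intervalIntegral.integral_of_le (by linarith [hb.pos]),
        integral_Ioc_eq_integral_Ioo, integral_Ioc_eq_integral_Ioo]
      apply setIntegral_congr_fun measurableSet_Ioo
      intro t ht
      have hk : ((0 : ℝ), t) ∈ Icc 0 r ×ˢ Icc (-r) r := ⟨⟨le_rfl, hb.pos.le⟩, ht.1.le, ht.2.le⟩
      have hli := linearIndependent_pair (hb.imm _ (hb.sub hk))
      have hrot : IsRotationOf (J (P (0, t)))
          (Submodule.span ℝ {d1 P (0, t), d2 P (0, t)}) := by
        have h1 := hJ.2 _ (hb.mapsTo hk)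
        rw [hb.tangent _ hk, range_eq_span_pair] at h1
        exact h1
      have e3 := norm_smul_J_cn hli hrot (hσJ _ hk)
      simp only [hb.conormal_eq ht]
      rw [← inner_smul_right (X (P (0, t))), ← inner_smul_right (X (P (0, t)))]
      congr 1
      exact e3.symm
    · obtain ⟨N, P, Ω, r, hxN, hNB, hb, hl⟩ := exists_box_interior h ⟨hx, hxB⟩
      refine ⟨N, hb.isOpenN, hxN, fun X hX hXN => ?_⟩
      obtain ⟨σ, hσ, hσJ, hst⟩ := hb.stokes' h.isCompact.measurableSet hJ
      have e1 := hst X hX hXN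
      have e2 : ∫ x in B, ⟪X x, J x (conormal M x)⟫_ℝ ∂μHE[1] = 0 := by
        apply setIntegral_eq_zero_of_forall_eq_zero
        intro x hx
        rw [zero_of_notMem hXN (fun hN => (disjoint_left.1 hNB) hN hx), inner_zero_left]
      have e3 : ∫ t in (-r)..r, ⟪X (P (-r, t)), d2 P (-r, t)⟫_ℝ = 0 := by
        rw [intervalIntegral.integral_of_le (by linarith [hb.pos])]
        apply setIntegral_eq_zero_of_forall_eq_zero
        intro t ht
        rw [zero_of_notMem hXN (hl t ⟨ht.1.le, ht.2⟩), inner_zero_left]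
      simp only [e1, e2, e3, mul_zero, sub_zero]

/-- The sharp isoperimetric inequality for compact orientable stationary surfaces. -/
theorem classical_main {M B : Set E} (h : IsCompactSurfaceWithBoundary M B)
    {J : E → E →L[ℝ] E} (hJ : IsOrientation M J) (hs : IsStationary M B) :
    ENNReal.ofReal (4 * Real.pi) * μHE[2] M ≤ (μHE[1] B) ^ 2 := by
  by_cases hB : μHE[1] B = ⊤
  · rw [hB]; simp
  have hB1 : μHE[1] B < ⊤ := lt_top_iff_ne_top.2 hB
  have hB2 : μHE[2] B = 0 := by
    rcases Measure.euclideanHausdorffMeasure_zero_or_top (show 1 < 2 by norm_num) B with h0 | h0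
    · exact h0
    · exact absurd h0 hB
  have hs1 := isStationary1_of_isStationary h.isCompact h.isClosed_boundary (area_lt_top h)
    (aesm_proj h hB2) hs
  exact surface_main2 h hJ
    ((continuousOn_conormal h).aestronglyMeasurable h.isClosed_boundary.measurableSet)
    (fun x hx => conormal_facts h hx) (firstVariationFormula h hB1 hB2 hs1)
    (stokesFormula h hB1 hB2 hJ)

/-- The near-sharp isoperimetric inequality for compact stationary surfaces, orientable or not. -/
theorem near_main {M B : Set E} (h : IsCompactSurfaceWithBoundary M B) (hs : IsStationary M B) :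
    ENNReal.ofReal (18 / 5 * Real.pi) * μHE[2] M ≤ (μHE[1] B) ^ 2 := by
  by_cases hB : μHE[1] B = ⊤
  · rw [hB]; simp
  have hB1 : μHE[1] B < ⊤ := lt_top_iff_ne_top.2 hB
  have hB2 : μHE[2] B = 0 := by
    rcases Measure.euclideanHausdorffMeasure_zero_or_top (show 1 < 2 by norm_num) B with h0 | h0
    · exact h0
    · exact absurd h0 hB
  have hs1 := isStationary1_of_isStationary h.isCompact h.isClosed_boundary (area_lt_top h)
    (aesm_proj h hB2) hs
  refine surface_main h
    ((continuousOn_conormal h).aestronglyMeasurable h.isClosed_boundary.measurableSet) ?_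
    (fun X hX => firstVariationFormula h hB1 hB2 hs1 X (hX.of_le (by simp)))
  filter_upwards [ae_restrict_mem h.isClosed_boundary.measurableSet] with x hx
  exact (conormal_facts h hx).1.le

end Pool.Agent.Helper74.Iso3
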